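import Pool.Agent.Lib.MP_c7af3c_ag.T2.H9.Enda
import Pool.Agent.Lib.MP_c7af3c_ag.T2C.IfaceA

/-!
# MP_c7af3c_ag, T2C: row ENDA
As T2/H9/Enda.lean, for a linear map `a` on tuples of forms (component `m` of degree `d m - 1`).
-/

set_option autoImplicit false

namespace Pool.Agent.T2C.H9

open MvPolynomial Matrix Pool.Agent.T2.H9 Pool.Agent.Gen Pool.Agent.Sharp Pool.Agent.Edge
open Pool.Agent.T2 (Fk Rac lnf)

section core

variable {Ω : Type} [Field Ω] {c r : ℕ} {d : Fin c → ℕ}

/-- a linear map which kills the tuples of monomials kills the tuples of forms -/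
theorem homT_ind {σ V : Type} [AddCommGroup V] [Module Ω V] (φ : (Fin c → MvPolynomial σ Ω) →ₗ[Ω] V) (D : Fin c → ℕ)
    (h : ∀ m, ∀ I : σ →₀ ℕ, I.degree = D m → φ (Pi.single m (monomial I 1)) = 0) (A : Fin c → MvPolynomial σ Ω)
    (hA : ∀ m, (A m).IsHomogeneous (D m)) : φ A = 0 := by
  classical
  have h1 : A = ∑ m, Pi.single m (A m) := by
    rw [Finset.univ_sum_single]
  rw [h1, map_sum]
  refine Finset.sum_eq_zero fun m _ => ?_
  exact hom_ind (φ.comp (LinearMap.single Ω (fun _ : Fin c => MvPolynomial σ Ω) m)) (D m) (h m) (A m) (hA m)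

/-- multiplication of a tuple by a form -/
theorem single_mul {σ : Type} (m : Fin c) (q p : MvPolynomial σ Ω) :
    (fun n => q * (Pi.single m p : Fin c → MvPolynomial σ Ω) n) = Pi.single m (q * p) := by
  funext n
  by_cases h : n = m
  · subst h
    rw [Pi.single_eq_same, Pi.single_eq_same]
  · rw [Pi.single_eq_of_ne h, Pi.single_eq_of_ne h, mul_zero]

theorem single_hom {σ : Type} (D : Fin c → ℕ) (m : Fin c) {p : MvPolynomial σ Ω} (hp : p.IsHomogeneous (D m)) (n : Fin c) :
    ((Pi.single m p : Fin c → MvPolynomial σ Ω) n).IsHomogeneous (D n) := by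
  by_cases h : n = m
  · subst h
    rw [Pi.single_eq_same]
    exact hp
  · rw [Pi.single_eq_of_ne h]
    exact isHomogeneous_zero _ _ _

theorem single_fk {σ : Type} (K : Subfield Ω) (D : Fin c → ℕ) (m : Fin c) {p : MvPolynomial σ Ω} (hp : Fk K (D m) p)
    (n : Fin c) : Fk K (D n) ((Pi.single m p : Fin c → MvPolynomial σ Ω) n) := by
  refine ⟨single_hom D m hp.1 n, fun I => ?_⟩
  by_cases h : n = m
  · subst h
    rw [Pi.single_eq_same]
    exact hp.2 I
  · rw [Pi.single_eq_of_ne h, coeff_zero]
    exact K.zero_mem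

/-- finitely many elements as combinations over `K` of independent elements, by functionals -/
theorem decompI (K : Subfield Ω) {J : Type} [Fintype J] (z : J → Ω) :
    ∃ (N : ℕ) (u : Fin N → Ω) (φ : Fin N → (Ω →ₗ[K] K)), (∀ j, z j = ∑ l, u l * (φ l (z j) : Ω)) ∧
      ∀ b : Fin N → Ω, (∀ l, b l ∈ K) → ∑ l, b l * u l = 0 → b = 0 := by
  classical
  let B := Module.Free.chooseBasis K Ω
  let s : Finset (Module.Free.ChooseBasisIndex K Ω) := Finset.univ.biUnion fun j => (B.repr (z j)).support
  refine ⟨s.card, fun l => B (s.equivFin.symm l), fun l => B.coord (s.equivFin.symm l), fun j => ?_, fun b hb h => ?_⟩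
  · have h1 := B.linearCombination_repr (z j)
    have hs : (B.repr (z j)).support ⊆ s := fun i hi => Finset.mem_biUnion.2 ⟨j, Finset.mem_univ _, hi⟩
    rw [Finsupp.linearCombination_apply, Finsupp.sum_of_support_subset _ hs (fun i a => a • B i)
      (fun i _ => zero_smul _ _)] at h1
    have h2 : ∑ i ∈ s, (B.repr (z j)) i • B i = ∑ l : Fin s.card, B (s.equivFin.symm l) *
        (B.coord (s.equivFin.symm l) (z j) : Ω) := by
      rw [← Finset.sum_coe_sort, ← Equiv.sum_comp s.equivFin.symm]
      refine Finset.sum_congr rfl fun l _ => ?_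
      rw [Module.Basis.coord_apply, mul_comm]
      rfl
    exact h1.symm.trans h2
  · have hli : LinearIndependent K fun l : Fin s.card => B (s.equivFin.symm l) :=
      B.linearIndependent.comp (fun l : Fin s.card => (s.equivFin.symm l : Module.Free.ChooseBasisIndex K Ω))
        fun l l' hl => s.equivFin.symm.injective (Subtype.ext hl)
    have h1 : ∑ l, (⟨b l, hb l⟩ : K) • B (s.equivFin.symm l) = 0 := by
      rw [← h]
      exact Finset.sum_congr rfl fun l _ => rfl
    funext l
    exact congrArg Subtype.val (Fintype.linearIndependent_iff.1 hli _ h1 l)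

variable {K : Subfield Ω} {y : Fin (r + 1) → Ω} {a : TP Ω r c →ₗ[Ω] Matrix (Fin r) (Fin r) Ω}

theorem commG_ext (h : CoreA K d y a) (v v' : Fin r → Ω) (p : Fin c → MvPolynomial (Fin (r + 1)) Ω)
    (hp : ∀ m, (p m).IsHomogeneous (d m - 2)) :
    a (fun q => lnf (evec y v) * p q) *ᵥ v' = a (fun q => lnf (evec y v') * p q) *ᵥ v := by
  have h1 : ∀ v v' : Fin r → Ω, a (fun q => lnf (evec y v) * p q) *ᵥ v' = fun m => ∑ i, ∑ j, v i * v' j *
      a (fun q => (X i.succ - C (y i.succ) * X 0) * p q) m j := by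
    intro v v'
    funext m
    have e : (fun q => lnf (evec y v) * p q) =
        ∑ i, v i • fun q => (X i.succ - C (y i.succ) * X 0 : MvPolynomial (Fin (r + 1)) Ω) * p q := by
      funext q
      rw [lnf_evec, Finset.sum_mul, Finset.sum_apply]
      refine Finset.sum_congr rfl fun i _ => ?_
      rw [Pi.smul_apply, smul_mul_assoc]
    rw [e, map_sum, Matrix.sum_mulVec, Finset.sum_apply]
    refine Finset.sum_congr rfl fun i _ => ?_
    rw [map_smul, Matrix.smul_mulVec, Pi.smul_apply, smul_eq_mul, Matrix.mulVec, dotProduct, Finset.mul_sum]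
    exact Finset.sum_congr rfl fun j _ => by ring
  rw [h1, h1]
  funext m
  rw [Finset.sum_comm]
  refine Finset.sum_congr rfl fun j _ => Finset.sum_congr rfl fun i _ => ?_
  rw [h.comm p hp i j m]
  ring

theorem traceG_mem (h : CoreA K d y a) :
    ∀ x ∈ Submonoid.closure {m | ∃ A : Fin c → MvPolynomial (Fin (r + 1)) Ω, (∀ m, Fk K (d m - 1) (A m)) ∧ m = a A},
      x.trace ∈ K := by
  intro x hx
  have h1 : ∃ l : List (Fin c → MvPolynomial (Fin (r + 1)) Ω), (∀ A ∈ l, ∀ m, Fk K (d m - 1) (A m)) ∧
      (l.map a).prod = x := by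
    induction hx using Submonoid.closure_induction with
    | mem z hz =>
      obtain ⟨A, hA, rfl⟩ := hz
      exact ⟨[A], by simpa using hA, by simp⟩
    | one => exact ⟨[], by simp, by simp⟩
    | mul u v _ _ hu hv =>
      obtain ⟨l1, h1, rfl⟩ := hu
      obtain ⟨l2, h2, rfl⟩ := hv
      refine ⟨l1 ++ l2, ?_, by simp⟩
      intro A hA
      rcases List.mem_append.1 hA with h3 | h3
      · exact h1 A h3
      · exact h2 A h3
  obtain ⟨l, hl, rfl⟩ := h1
  exact h.word l hl

/-- monomials are over `K` -/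
theorem fk_monoG {e : ℕ} (he : 2 ≤ e) (J : Fin (r + 1) →₀ ℕ) (hJ : J.degree = e - 2) (j : Fin (r + 1)) :
    Fk K (e - 1) (X j * monomial J (1 : Ω)) := by
  classical
  refine ⟨?_, coeff_mul_mem K (fun I => ?_) (fun I => ?_)⟩
  · have h1 := (isHomogeneous_X Ω j).mul (isHomogeneous_monomial (R := Ω) 1 hJ)
    have e1 : 1 + (e - 2) = e - 1 := by omega
    rwa [e1] at h1
  · rw [coeff_X]
    split_ifs
    · exact K.one_mem
    · exact K.zero_mem
  · rw [coeff_monomial]
    split_ifs
    · exact K.one_mem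
    · exact K.zero_mem

end core

theorem enda : EndaStatement := by
  intro Ω _ _ _ K hK c d r y a hd hr h
  classical
  -- rational rows
  obtain ⟨ρ, τ, hρ, hτ, hst⟩ := exists_rat K (Submonoid.closure
    {m | ∃ A : Fin c → MvPolynomial (Fin (r + 1)) Ω, (∀ m, Fk K (d m - 1) (A m)) ∧ m = a A}) hr (traceG_mem h)
  have hrow : ∀ A : Fin c → MvPolynomial (Fin (r + 1)) Ω, (∀ m, Fk K (d m - 1) (A m)) →
      ∀ k, ∃ v : Fin ρ → K, τ k ᵥ* a A = ∑ j, (v j : Ω) • τ j :=
    fun A hA k => hst _ (Submonoid.subset_closure ⟨A, hA, rfl⟩) k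
  have hmono : ∀ m, ∀ I : Fin (r + 1) →₀ ℕ, I.degree = d m - 1 →
      ∀ n, Fk K (d n - 1) ((Pi.single m (monomial I (1 : Ω)) : Fin c → MvPolynomial (Fin (r + 1)) Ω) n) := by
    intro m I hI
    refine single_fk K (fun m => d m - 1) m ⟨isHomogeneous_monomial 1 hI, fun I' => ?_⟩
    rw [coeff_monomial]
    split_ifs
    · exact K.one_mem
    · exact K.zero_mem
  -- the span is stable under all forms
  have hspan : ∀ A : Fin c → MvPolynomial (Fin (r + 1)) Ω, (∀ m, (A m).IsHomogeneous (d m - 1)) → ∀ k,
      τ k ᵥ* a A ∈ Submodule.span Ω (Set.range τ) := by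
    intro A hA k
    let φ : (Fin c → MvPolynomial (Fin (r + 1)) Ω) →ₗ[Ω] ((Fin r → Ω) ⧸ Submodule.span Ω (Set.range τ)) :=
      (Submodule.span Ω (Set.range τ)).mkQ.comp
        ({ toFun := fun A => τ k ᵥ* a A
           map_add' := fun p q => by rw [map_add, vecMul_add]
           map_smul' := fun c p => by rw [map_smul, vecMul_smul]; rfl } :
          (Fin c → MvPolynomial (Fin (r + 1)) Ω) →ₗ[Ω] (Fin r → Ω))
    have h1 : φ A = 0 := homT_ind φ (fun m => d m - 1) (fun m I hI => by
      obtain ⟨v, hv⟩ := hrow _ (hmono m I hI) k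
      show (Submodule.span Ω (Set.range τ)).mkQ (τ k ᵥ* a (Pi.single m (monomial I 1))) = 0
      rw [Submodule.mkQ_apply, Submodule.Quotient.mk_eq_zero, hv]
      exact Submodule.sum_mem _ fun j _ => Submodule.smul_mem _ _ (Submodule.subset_span ⟨j, rfl⟩)) A hA
    exact (Submodule.Quotient.mk_eq_zero _).1 h1
  -- there are at least `r` of them
  have hle : ρ ≤ r := by
    have := hτ.fintype_card_le_finrank
    simpa using this
  have hρr : ρ = r := by
    by_contra hne
    have hlt : ρ < r := lt_of_le_of_ne hle hne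
    have h1 : LinearMap.ker (Matrix.mulVecLin (Matrix.of τ)) ≠ ⊥ := by
      apply LinearMap.ker_ne_bot_of_finrank_lt
      simpa using hlt
    obtain ⟨v, hv, hv0⟩ := Submodule.exists_mem_ne_zero_of_ne_bot h1
    have hv1 : ∀ k, τ k ⬝ᵥ v = 0 := fun k => congrFun (LinearMap.mem_ker.1 hv) k
    have hv2 : ∀ w ∈ Submodule.span Ω (Set.range τ), w ⬝ᵥ v = 0 := by
      intro w hw
      induction hw using Submodule.span_induction with
      | mem x hx => obtain ⟨k, rfl⟩ := hx; exact hv1 k
      | zero => rw [zero_dotProduct]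
      | add u v _ _ hu hv => rw [add_dotProduct, hu, hv, add_zero]
      | smul t u _ hu => rw [smul_dotProduct, hu, smul_zero]
    set lam := evec y v with hlam
    have hkill : ∀ p : Fin c → MvPolynomial (Fin (r + 1)) Ω, (∀ m, (p m).IsHomogeneous (d m - 2)) →
        ∀ k, τ k ᵥ* a (fun q => lnf lam * p q) = 0 := by
      intro p hp k
      funext j
      have h2 : (τ k ᵥ* a (fun q => lnf lam * p q)) j = τ k ⬝ᵥ (a (fun q => lnf lam * p q) *ᵥ Pi.single j 1) := by
        rw [dotProduct_mulVec, dotProduct_single, mul_one]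
      rw [h2, commG_ext h v (Pi.single j 1) p hp, dotProduct_mulVec]
      refine hv2 _ (hspan _ (fun m => ?_) k)
      have h3 := (lnf_hom (evec y (Pi.single j 1))).mul (hp m)
      have h4 := hd m
      have e1 : 1 + (d m - 2) = d m - 1 := by omega
      rwa [e1] at h3
    have hlam0 : ∃ j, lam j ≠ 0 := by
      obtain ⟨i, hi⟩ := Function.ne_iff.1 hv0
      exact ⟨i.succ, by rw [hlam]; exact hi⟩
    obtain ⟨j0, hj0⟩ := hlam0
    obtain ⟨φ, hφ⟩ : ∃ φ : Module.Dual K Ω, φ (lam j0) ≠ 0 := by
      by_contra hcon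
      push Not at hcon
      exact hj0 ((Module.forall_dual_apply_eq_zero_iff K (lam j0)).1 hcon)
    -- the rational form
    set b : Fin (r + 1) → Ω := fun j => (φ (lam j) : Ω) with hb
    have hb0 : b ≠ 0 := by
      intro h0
      exact hφ (Subtype.ext (congrFun h0 j0))
    have hk0 : τ ⟨0, hρ⟩ = 0 := by
      refine h.eqv b (fun i => (φ (lam i)).2) hb0 (τ ⟨0, hρ⟩) ?_
      intro p hp j
      have h3 : τ ⟨0, hρ⟩ ᵥ* a (fun q => lnf b * p q) = 0 := by
        let ψ : (Fin c → MvPolynomial (Fin (r + 1)) Ω) →ₗ[Ω] (Fin r → Ω) :=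
          { toFun := fun p => τ ⟨0, hρ⟩ ᵥ* a (fun q => lnf b * p q)
            map_add' := fun p q => by
              rw [← vecMul_add, ← map_add]
              congr 2
              funext n
              exact mul_add _ _ _
            map_smul' := fun c p => by
              have e : (fun q => lnf b * (c • p) q) = c • fun q => lnf b * p q := by
                funext n
                rw [Pi.smul_apply, Pi.smul_apply, mul_smul_comm]
              rw [e, map_smul, vecMul_smul]; rfl }
        refine homT_ind ψ (fun m => d m - 2) (fun m J hJ => ?_) p hp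
        show τ ⟨0, hρ⟩ ᵥ* a (fun q => lnf b * (Pi.single m (monomial J 1) : Fin c → MvPolynomial (Fin (r + 1)) Ω) q) = 0
        rw [single_mul]
        choose κ hκ using fun j => hrow (Pi.single m (X j * monomial J (1 : Ω)))
          (single_fk K (fun m => d m - 1) m (fk_monoG (K := K) (hd m) J hJ j)) ⟨0, hρ⟩
        have h4 : ∀ z : Fin (r + 1) → Ω, τ ⟨0, hρ⟩ ᵥ* a (Pi.single m (lnf z * monomial J 1)) =
            ∑ m, (∑ j, z j * (κ j m : Ω)) • τ m := by
          intro z
          have e : (Pi.single m (lnf z * monomial J 1) : Fin c → MvPolynomial (Fin (r + 1)) Ω) =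
              ∑ i, z i • Pi.single m (X i * monomial J 1) := by
            rw [lnf_mul]
            have h5 := map_sum (LinearMap.single Ω (fun _ : Fin c => MvPolynomial (Fin (r + 1)) Ω) m)
              (fun i => z i • (X i * monomial J (1 : Ω))) Finset.univ
            simp only [map_smul] at h5
            exact h5
          rw [e, map_sum, Matrix.vecMul_sum]
          simp only [map_smul, vecMul_smul, hκ, Finset.smul_sum, Finset.sum_smul, smul_smul]
          rw [Finset.sum_comm]
        have h5 := hkill (Pi.single m (monomial J 1))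
          (single_hom (fun m => d m - 2) m (isHomogeneous_monomial 1 hJ)) ⟨0, hρ⟩
        rw [single_mul] at h5
        rw [h4] at h5 ⊢
        have h6 := Fintype.linearIndependent_iff.1 hτ _ h5
        refine Finset.sum_eq_zero fun m _ => ?_
        have h7 : ∑ j, b j * (κ j m : Ω) = 0 := by
          have h8 := congrArg (fun z => (φ z : Ω)) (h6 m)
          simp only [map_sum, map_zero] at h8
          have h9 : ∀ j, φ (lam j * (κ j m : Ω)) = φ (lam j) * κ j m := by
            intro j
            have h10 : lam j * (κ j m : Ω) = κ j m • lam j := by rw [mul_comm]; rfl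
            rw [h10, map_smul, smul_eq_mul, mul_comm]
          simp only [h9] at h8
          have h11 : ((∑ j, φ (lam j) * κ j m : K) : Ω) = ∑ j, b j * (κ j m : Ω) := by
            push_cast
            rfl
          rw [← h11]
          exact h8
        rw [h7, zero_smul]
      exact congrFun h3 j
    exact hτ.ne_zero _ hk0
  subst hρr
  -- the basis
  set G : Matrix (Fin ρ) (Fin ρ) Ω := Matrix.of τ with hG
  have hGu : IsUnit G := Matrix.linearIndependent_rows_iff_isUnit.1 hτ
  have hGd : IsUnit G.det := (Matrix.isUnit_iff_isUnit_det G).1 hGu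
  have hGG : G * G⁻¹ = 1 := Matrix.mul_nonsing_inv G hGd
  have hGG' : G⁻¹ * G = 1 := Matrix.nonsing_inv_mul G hGd
  -- the entries in the new basis
  let f : Fin ρ → Fin ρ → (Fin c → MvPolynomial (Fin (ρ + 1)) Ω) →ₗ[Ω] Ω := fun k e =>
    { toFun := fun A => (G * a A * G⁻¹) k e
      map_add' := fun p q => by rw [map_add, mul_add, add_mul, Matrix.add_apply]
      map_smul' := fun c p => by
        rw [map_smul, mul_smul_comm, smul_mul_assoc, Matrix.smul_apply]; rfl }
  have hf : ∀ k e A, f k e A = τ k ⬝ᵥ (a A *ᵥ fun i => G⁻¹ i e) := by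
    intro k e A
    show (G * a A * G⁻¹) k e = _
    rw [mul_assoc, Matrix.mul_apply']
    congr 1
  have hdual : ∀ k e, τ k ⬝ᵥ (fun i => G⁻¹ i e) = if k = e then 1 else 0 := by
    intro k e
    have h1 := congrFun (congrFun hGG k) e
    rw [Matrix.one_apply] at h1
    exact h1
  have hfK : ∀ k e (A : Fin c → MvPolynomial (Fin (ρ + 1)) Ω), (∀ m, Fk K (d m - 1) (A m)) → f k e A ∈ K := by
    intro k e A hA
    obtain ⟨v, hv⟩ := hrow A hA k
    rw [hf, dotProduct_mulVec, hv, sum_dotProduct]
    refine K.sum_mem fun j _ => ?_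
    rw [smul_dotProduct, hdual, smul_eq_mul]
    refine K.mul_mem (v j).2 ?_
    split_ifs
    · exact K.one_mem
    · exact K.zero_mem
  -- the forms
  set E : Fin ρ → Fin (ρ + 1) → Ω := fun e => evec y fun i => G⁻¹ i e with hE
  have hrel : ∀ k e e' (p : Fin c → MvPolynomial (Fin (ρ + 1)) Ω), (∀ m, (p m).IsHomogeneous (d m - 2)) →
      f k e' (fun q => lnf (E e) * p q) = f k e (fun q => lnf (E e') * p q) := by
    intro k e e' p hp
    rw [hf, hf, hE, commG_ext h _ _ p hp]
  obtain ⟨N, u, φ, hφ, hu⟩ := decompI K (fun q : Fin ρ × Fin (ρ + 1) => E q.1 q.2)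
  set ι : Fin N → Fin ρ → Fin (ρ + 1) → Ω := fun l e j => (φ l (E e j) : Ω) with hι
  have hιE : ∀ e j, E e j = ∑ l, u l * ι l e j := fun e j => hφ (e, j)
  have hιK : ∀ l e j, ι l e j ∈ K := fun l e j => (φ l (E e j)).2
  -- the relations for each `ι l`
  have hrl : ∀ l k e e' (p : Fin c → MvPolynomial (Fin (ρ + 1)) Ω), (∀ m, (p m).IsHomogeneous (d m - 2)) →
      f k e' (fun q => lnf (ι l e) * p q) = f k e (fun q => lnf (ι l e') * p q) := by
    intro l k e e' p hp
    let ψ : (Fin c → MvPolynomial (Fin (ρ + 1)) Ω) →ₗ[Ω] Ω :=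
      { toFun := fun p => f k e' (fun q => lnf (ι l e) * p q) - f k e (fun q => lnf (ι l e') * p q)
        map_add' := fun p q => by
          have h1 : ∀ z : MvPolynomial (Fin (ρ + 1)) Ω, (fun n => z * (p + q) n) = (fun n => z * p n) + fun n => z * q n :=
            fun z => by funext n; exact mul_add _ _ _
          rw [h1, h1, map_add, map_add]; ring
        map_smul' := fun t p => by
          have h1 : ∀ z : MvPolynomial (Fin (ρ + 1)) Ω, (fun n => z * (t • p) n) = t • fun n => z * p n :=
            fun z => by funext n; rw [Pi.smul_apply, Pi.smul_apply, mul_smul_comm]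
          rw [h1, h1, map_smul, map_smul, RingHom.id_apply, smul_sub] }
    refine sub_eq_zero.1 (homT_ind ψ (fun m => d m - 2) (fun m J hJ => ?_) p hp)
    show f k e' (fun q => lnf (ι l e) * (Pi.single m (monomial J 1) : Fin c → MvPolynomial (Fin (ρ + 1)) Ω) q) -
      f k e (fun q => lnf (ι l e') * (Pi.single m (monomial J 1) : Fin c → MvPolynomial (Fin (ρ + 1)) Ω) q) = 0
    rw [single_mul, single_mul]
    have h4 : ∀ (z : Fin (ρ + 1) → Ω) (e : Fin ρ), f k e (Pi.single m (lnf z * monomial J 1)) =
        ∑ j, z j * f k e (Pi.single m (X j * monomial J 1)) := by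
      intro z e
      have h5 : (Pi.single m (lnf z * monomial J 1) : Fin c → MvPolynomial (Fin (ρ + 1)) Ω) =
          ∑ i, z i • Pi.single m (X i * monomial J 1) := by
        rw [lnf_mul]
        have h5 := map_sum (LinearMap.single Ω (fun _ : Fin c => MvPolynomial (Fin (ρ + 1)) Ω) m)
          (fun i => z i • (X i * monomial J (1 : Ω))) Finset.univ
        simp only [map_smul] at h5
        exact h5
      rw [h5, map_sum]
      exact Finset.sum_congr rfl fun j _ => by rw [map_smul, smul_eq_mul]
    have h5 := hrel k e e' (Pi.single m (monomial J 1))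
      (single_hom (fun m => d m - 2) m (isHomogeneous_monomial 1 hJ))
    rw [single_mul, single_mul, h4, h4] at h5
    rw [h4, h4, sub_eq_zero]
    have h6 : ∀ (e e' : Fin ρ), (φ l (∑ j, E e j * f k e' (Pi.single m (X j * monomial J 1))) : Ω) =
        ∑ j, ι l e j * f k e' (Pi.single m (X j * monomial J 1)) := by
      intro e e'
      rw [map_sum]
      push_cast
      refine Finset.sum_congr rfl fun j _ => ?_
      have h7 : E e j * f k e' (Pi.single m (X j * monomial J 1)) =
          (⟨_, hfK k e' _ (single_fk K (fun m => d m - 1) m (fk_monoG (K := K) (hd m) J hJ j))⟩ : K) • E e j := by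
        rw [mul_comm]; rfl
      rw [h7, map_smul, smul_eq_mul, Subfield.coe_mul, mul_comm]
    rw [← h6, ← h6, h5]
  refine ⟨N, ι, u, hιK, ?_, ?_, hu, ?_⟩
  · intro e
    have h1 := sum_evec y h.y0 (fun i => G⁻¹ i e)
    rw [← h1]
    refine Finset.sum_congr rfl fun j _ => ?_
    rw [← hιE]
  · have h1 : (fun e j => ∑ l, u l * ι l e j) = E := by
      funext e j
      exact (hιE e j).symm
    rw [h1, Fintype.linearIndependent_iff]
    intro g hg
    have h2 : G⁻¹ *ᵥ g = 0 := by
      funext i
      have h3 := congrFun hg i.succ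
      rw [Finset.sum_apply] at h3
      simp only [Pi.smul_apply, smul_eq_mul, Pi.zero_apply] at h3
      rw [Matrix.mulVec, dotProduct]
      rw [Pi.zero_apply, ← h3]
      exact Finset.sum_congr rfl fun e _ => mul_comm _ _
    have h4 : g = 0 := by
      have h5 := congrArg (fun v => G *ᵥ v) h2
      simp only [mulVec_mulVec, hGG, one_mulVec, mulVec_zero] at h5
      exact h5
    exact fun i => congrFun h4 i
  · intro l l' e e' m0 hm0 p hp
    have h2 : ∀ k e'', f k e''
        (Pi.single m0 ((lnf (ι l e) * lnf (ι l' e') - lnf (ι l e') * lnf (ι l' e)) * p)) = 0 := by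
      intro k e''
      have hq : ∀ l e, ∀ n, ((Pi.single m0 (lnf (ι l e) * p) : Fin c → MvPolynomial (Fin (ρ + 1)) Ω) n).IsHomogeneous
          (d n - 2) := fun l e => by
        refine single_hom (fun m => d m - 2) m0 ?_
        have h3 := (lnf_hom (ι l e)).mul hp
        have e1 : 1 + (d m0 - 3) = d m0 - 2 := by omega
        rwa [e1] at h3
      have key : ∀ (l k e e' : _) (l' : Fin N) (e'' : Fin ρ), f k e' (Pi.single m0 (lnf (ι l e) * (lnf (ι l' e'') * p))) =
          f k e (Pi.single m0 (lnf (ι l e') * (lnf (ι l' e'') * p))) := by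
        intro l k e e' l' e''
        have h3 := hrl l k e e' _ (hq l' e'')
        rw [single_mul, single_mul] at h3
        exact h3
      have s1 := key l k e e'' l' e'
      have s2 := key l' k e' e l e''
      have s3 := key l k e'' e' l' e
      have e1 : lnf (ι l e'') * (lnf (ι l' e') * p) = lnf (ι l' e') * (lnf (ι l e'') * p) := by ring
      have e2 : lnf (ι l' e) * (lnf (ι l e'') * p) = lnf (ι l e'') * (lnf (ι l' e) * p) := by ring
      rw [sub_mul, Pi.single_sub, map_sub, mul_assoc, mul_assoc, s1, e1, s2, e2, s3, sub_self]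
    have h3 : G * a (Pi.single m0 ((lnf (ι l e) * lnf (ι l' e') - lnf (ι l e') * lnf (ι l' e)) * p)) * G⁻¹ = 0 := by
      ext k e''
      exact h2 k e''
    calc a (Pi.single m0 ((lnf (ι l e) * lnf (ι l' e') - lnf (ι l e') * lnf (ι l' e)) * p))
        = G⁻¹ * (G * a (Pi.single m0 ((lnf (ι l e) * lnf (ι l' e') - lnf (ι l e') * lnf (ι l' e)) * p)) * G⁻¹) * G := by
          rw [mul_assoc G, ← mul_assoc G⁻¹, hGG', one_mul, mul_assoc, hGG', mul_one]
      _ = 0 := by rw [h3, mul_zero, zero_mul]

end Pool.Agent.T2C.H9
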